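import Pool.Agent.H14.Ex2
set_option autoImplicit false

open Finset Polynomial Equiv

theorem Pool.Agent.Results.MP_b94b02_co.Threshold.result :
    (∃ z : ℂ, z.im ≠ 0 ∧ aeval z (∑ σ ∈ univ.filter (fun σ : Perm (Fin 5) => Perm.sign σ = 1),
      (X : ℝ[X]) ^ (univ.filter fun i => i < σ i).card) = 0) ∧
    ∀ n, 6 ≤ n → ∀ z : ℂ,
      (aeval z (∑ σ ∈ univ.filter (fun σ : Perm (Fin n) => Perm.sign σ = 1),
          (X : ℝ[X]) ^ (univ.filter fun i => i < σ i).card) = 0 ∨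
        aeval z (∑ σ ∈ univ.filter (fun σ : Perm (Fin n) => Perm.sign σ = -1),
          (X : ℝ[X]) ^ (univ.filter fun i => i < σ i).card) = 0) → z.im = 0 :=
  Pool.Agent.H14.Ex.final
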